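import Mathlib
import Pool.Agent.X169.RandomSetsExample

/-!
# The strong law for random sets with one common expectation fails in Hilbert space
-/

namespace Pool.Agent.Results.MP_aabed8_pr.CommonExpectationFails

open MeasureTheory ProbabilityTheory Filter Topology Set X169.RS

/-- `X` is B-convex. -/
def BConvex (X : Type*) [NormedAddCommGroup X] [NormedSpace ℝ X] : Prop :=
  ∃ k : ℕ, 2 ≤ k ∧ ∃ ε : ℝ, 0 < ε ∧ ∀ x : Fin k → X, (∀ i, ‖x i‖ ≤ 1) →
    ∃ s : Fin k → ℝ, (∀ i, s i = 1 ∨ s i = -1) ∧ ‖∑ i, s i • x i‖ ≤ k * (1 - ε)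

theorem bconvex_of_inner (H : Type*) [NormedAddCommGroup H] [InnerProductSpace ℝ H] :
    BConvex H := by
  refine ⟨2, le_rfl, 1 / 4, by norm_num, fun x hx => ?_⟩
  have h0 := hx 0
  have h1 := hx 1
  have hp := parallelogram_bound (x 0) (x 1)
  have h0' : ‖x 0‖ ^ 2 ≤ 1 := by
    have := norm_nonneg (x 0)
    nlinarith
  have h1' : ‖x 1‖ ^ 2 ≤ 1 := by
    have := norm_nonneg (x 1)
    nlinarith
  by_cases h : ‖x 0 + x 1‖ ≤ 3 / 2
  · refine ⟨fun _ => 1, fun _ => Or.inl rfl, ?_⟩
    simp only [Fin.sum_univ_two, one_smul]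
    norm_num
    linarith
  · push Not at h
    refine ⟨![1, -1], ?_, ?_⟩
    · intro i
      fin_cases i
      · left; rfl
      · right; rfl
    · simp only [Fin.sum_univ_two, Matrix.cons_val_zero, Matrix.cons_val_one, one_smul, neg_smul]
      rw [← sub_eq_add_neg]
      have hs : ‖x 0 - x 1‖ ≤ 3 / 2 := by
        by_contra hc
        push Not at hc
        nlinarith
      norm_num
      linarith

/-- There are a B-convex Banach space (the real Hilbert space `ℓ²`) and a uniformly bounded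
independent sequence of random sets, all with the same expectation `U`, whose averages do not
converge to `U` in the Hausdorff distance at any point of the probability space. -/
theorem result : BConvex ell2 ∧
    ∃ (Ω : Type) (_ : MeasurableSpace Ω) (μ : Measure Ω) (_ : IsProbabilityMeasure μ)
      (Ψ : ℕ → Ω → BC ell2) (U : BC ell2),
      (∃ r : ℝ, ∀ n ω, (Ψ n ω).carrier ⊆ Metric.closedBall 0 r) ∧
      (∀ n, Measurable fun ω => R (Ψ n ω)) ∧
      IndepSets Ψ μ ∧
      (∀ n, HasExpectation (Ψ n) U μ) ∧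
      ∀ ω, ¬ Tendsto (fun n => Metric.hausdorffDist (avg Ψ n ω).carrier U.carrier) atTop
        (𝓝 0) := by
  refine ⟨bconvex_of_inner ell2, ?_⟩
  obtain ⟨b, hb⟩ := exists_orthonormal_ell2
  obtain ⟨Ω, mΩ, μ, hμ, Ψ, U, _, hUδ, hΨ, hm, hE, hI, hL⟩ :=
    exists_example hb (δ := 1 / 8) (by norm_num)
  refine ⟨Ω, mΩ, μ, hμ, Ψ, U, ⟨1, fun n ω x hx => ?_⟩, fun n => (hm n).measurable, hI, hE,
    fun ω => not_tendsto_of_large hUδ (hL ω)⟩
  rw [mem_closedBall_zero_iff]
  exact hΨ n ω x hx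

end Pool.Agent.Results.MP_aabed8_pr.CommonExpectationFails
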